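import Pool.Agent.QNLS74.Local

/-! The heat flow and the Schroedinger flow of the quadratic equation commute locally. -/

open Filter Topology Set MeasureTheory

namespace QNLS74

section Abstract

variable {E : Type*} [NormedAddCommGroup E] [NormedSpace ℂ E]

/-- quadratic vector field -/
noncomputable def quad (A : E →L[ℂ] E) (Q : E →L[ℂ] E →L[ℂ] E) (x : E) : E := A x + Q x x

theorem quad_sub (A : E →L[ℂ] E) (Q : E →L[ℂ] E →L[ℂ] E) (hQ : ∀ x y, Q x y = Q y x) (x y : E) :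
    quad A Q x - quad A Q y = A (x - y) + (2 : ℂ) • Q y (x - y) + Q (x - y) (x - y) := by
  have h := hQ x y
  simp only [quad, map_sub, sub_apply]
  rw [h, two_smul]; abel

theorem quad_hasDeriv (A : E →L[ℂ] E) (Q : E →L[ℂ] E →L[ℂ] E) (hQ : ∀ x y, Q x y = Q y x)
    {w : ℝ → E} {w' : E} {S : Set ℝ} {a : ℝ} (hw : HasDerivWithinAt w w' S a) :
    HasDerivWithinAt (fun a => quad A Q (w a)) (A w' + (2 : ℂ) • Q (w a) w') S a := by
  have h1 : HasDerivWithinAt (fun a => A (w a)) (A w') S a :=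
    (A.restrictScalars ℝ).hasFDerivAt.comp_hasDerivWithinAt a hw
  have h2 : HasDerivWithinAt (fun a => Q (w a)) (Q w') S a :=
    (Q.restrictScalars ℝ).hasFDerivAt.comp_hasDerivWithinAt a hw
  have h3 : HasDerivWithinAt (fun a => Q (w a) (w a)) (Q w' (w a) + Q (w a) w') S a := by
    let QR : E →L[ℝ] E →L[ℝ] E :=
      (ContinuousLinearMap.restrictScalarsL ℂ E E ℝ ℝ).comp (Q.restrictScalars ℝ)
    have h4 := (QR.isBoundedBilinearMap.hasFDerivAt (w a, w a)).comp_hasDerivWithinAt a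
      (hw.prodMk hw)
    refine h4.congr_deriv ?_
    show Q (w a) w' + Q w' (w a) = _
    rw [add_comm]
  refine (h1.add h3).congr_deriv ?_
  rw [hQ w' (w a), two_smul]

theorem gron {f f' : ℝ → E} {C e σ : ℝ} (hC : 1 ≤ C) (he : 0 ≤ e)
    (hf : ∀ x ∈ Icc 0 σ, HasDerivWithinAt f (f' x) (Icc 0 σ) x)
    (hb : ∀ x ∈ Icc 0 σ, ‖f' x‖ ≤ C * ‖f x‖ + e) :
    ∀ x ∈ Icc 0 σ, ‖f x‖ ≤ (‖f 0‖ + e) * Real.exp (C * σ) := by
  intro x hx
  have h := norm_le_gronwallBound_of_norm_deriv_right_le (f := f) (f' := f') (δ := ‖f 0‖)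
    (K := C) (ε := e) (a := 0) (b := σ) (fun x hx => (hf x hx).continuousWithinAt)
    (fun x hx => (hf x (Ico_subset_Icc_self hx)).mono_of_mem_nhdsWithin (Icc_nhds_Ici hx))
    le_rfl (fun x hx => hb x (Ico_subset_Icc_self hx)) x hx
  rw [sub_zero, gronwallBound_of_K_ne_0 (by positivity)] at h
  have h1 : Real.exp (C * x) ≤ Real.exp (C * σ) := by
    apply Real.exp_le_exp.2
    have := hx.2
    gcongr
  have h2 : e / C ≤ e := div_le_self he hC
  have h3 : e / C * (Real.exp (C * x) - 1) ≤ e * Real.exp (C * σ) := by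
    have h4 : 0 ≤ e / C := by positivity
    have h5 : Real.exp (C * x) - 1 ≤ Real.exp (C * σ) := by linarith
    calc e / C * (Real.exp (C * x) - 1) ≤ e / C * Real.exp (C * σ) := by gcongr
      _ ≤ e * Real.exp (C * σ) := by gcongr
  have h6 : ‖f 0‖ * Real.exp (C * x) ≤ ‖f 0‖ * Real.exp (C * σ) := by gcongr
  have h7 : ‖f x‖ ≤ ‖f 0‖ * Real.exp (C * x) + e / C * (Real.exp (C * x) - 1) := h
  rw [add_mul]
  linarith

/-- Transport of solutions of `y' = i F(y)` by the flow of `F`. -/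
theorem transport (A : E →L[ℂ] E) (Q : E →L[ℂ] E →L[ℂ] E) (hQ : ∀ x y, Q x y = Q y x)
    {s σ K : ℝ} (hK : 0 ≤ K) {y : ℝ → E} {W : ℝ → ℝ → E}
    (hy : ∀ b ∈ Icc 0 s, HasDerivWithinAt y (Complex.I • quad A Q (y b)) (Icc 0 s) b)
    (hW : ∀ b ∈ Icc 0 s, ∀ a ∈ Icc 0 σ,
      HasDerivWithinAt (W b) (quad A Q (W b a)) (Icc 0 σ) a)
    (hW0 : ∀ b ∈ Icc 0 s, W b 0 = y b)
    (hWK : ∀ b ∈ Icc 0 s, ∀ a ∈ Icc 0 σ, ‖W b a‖ ≤ K) :
    ∀ a ∈ Icc 0 σ, ∀ b ∈ Icc 0 s,
      HasDerivWithinAt (fun b => W b a) (Complex.I • quad A Q (W b a)) (Icc 0 s) b := by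
  intro a ha b hb
  set C : ℝ := ‖A‖ + 4 * K * ‖Q‖ + 1 with hC
  have hC1 : 1 ≤ C := by rw [hC]; nlinarith [norm_nonneg A, norm_nonneg Q, mul_nonneg hK (norm_nonneg Q)]
  have h0σ : (0:ℝ) ∈ Icc 0 σ := ⟨le_rfl, ha.1.trans ha.2⟩
  set e1 := Real.exp (C * σ) with he1
  have he1p : 0 < e1 := Real.exp_pos _
  -- Lipschitz dependence
  have hlip : ∀ b' ∈ Icc 0 s, ∀ a ∈ Icc 0 σ, ‖W b' a - W b a‖ ≤ ‖y b' - y b‖ * e1 := by
    intro b' hb' a ha
    have h := gron (f := fun a => W b' a - W b a)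
      (f' := fun a => quad A Q (W b' a) - quad A Q (W b a)) (C := C) (e := 0) (σ := σ) hC1 le_rfl
      (fun x hx => (hW b' hb' x hx).sub (hW b hb x hx)) ?_ a ha
    · simpa [hW0 b' hb', hW0 b hb] using h
    · intro x hx
      rw [quad_sub A Q hQ]
      have e2 : (2 : ℂ) • Q (W b x) (W b' x - W b x) + Q (W b' x - W b x) (W b' x - W b x) =
          Q (W b x + W b' x) (W b' x - W b x) := by
        simp only [map_add, map_sub, add_apply, sub_apply, two_smul]; abel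
      rw [add_assoc, e2, add_zero]
      have i1 : ‖A (W b' x - W b x)‖ ≤ ‖A‖ * ‖W b' x - W b x‖ := A.le_opNorm _
      have i2 : ‖Q (W b x + W b' x) (W b' x - W b x)‖ ≤
          ‖Q‖ * ‖W b x + W b' x‖ * ‖W b' x - W b x‖ := Q.le_opNorm₂ _ _
      have i3 : ‖W b x + W b' x‖ ≤ 2 * K :=
        (norm_add_le _ _).trans (by linarith [hWK b hb x hx, hWK b' hb' x hx])
      have i4 : ‖Q‖ * ‖W b x + W b' x‖ * ‖W b' x - W b x‖ ≤ ‖Q‖ * (2 * K) * ‖W b' x - W b x‖ := by
        gcongr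
      refine (norm_add_le _ _).trans ?_
      rw [hC]
      nlinarith [norm_nonneg (W b' x - W b x), mul_nonneg (mul_nonneg hK (norm_nonneg Q))
        (norm_nonneg (W b' x - W b x))]
  -- second order estimate
  have hsec : ∀ b' ∈ Icc 0 s,
      ‖W b' a - W b a - ((b' - b : ℝ) : ℂ) • (Complex.I • quad A Q (W b a))‖ ≤
      (‖y b' - y b - ((b' - b : ℝ) : ℂ) • (Complex.I • quad A Q (y b))‖ +
        ‖Q‖ * (‖y b' - y b‖ * e1) ^ 2) * e1 := by
    intro b' hb'
    set r : ℂ := ((b' - b : ℝ) : ℂ) with hr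
    have h := gron (f := fun a => W b' a - W b a - r • (Complex.I • quad A Q (W b a)))
      (f' := fun a => quad A Q (W b' a) - quad A Q (W b a) -
        r • (Complex.I • (A (quad A Q (W b a)) + (2 : ℂ) • Q (W b a) (quad A Q (W b a)))))
      (C := C) (e := ‖Q‖ * (‖y b' - y b‖ * e1) ^ 2) (σ := σ) hC1 (by positivity) ?_ ?_ a ha
    · simpa only [hW0 b' hb', hW0 b hb] using h
    · intro x hx
      exact ((hW b' hb' x hx).sub (hW b hb x hx)).sub
        (((quad_hasDeriv A Q hQ (hW b hb x hx)).const_smul Complex.I).const_smul r)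
    · intro x hx
      rw [quad_sub A Q hQ]
      set Δ := W b' x - W b x with hΔ
      set G := quad A Q (W b x) with hG
      have e2 : A Δ + (2 : ℂ) • Q (W b x) Δ + Q Δ Δ -
          r • (Complex.I • (A G + (2 : ℂ) • Q (W b x) G)) =
          A (Δ - r • (Complex.I • G)) + (2 : ℂ) • Q (W b x) (Δ - r • (Complex.I • G)) + Q Δ Δ := by
        simp only [map_sub, map_smul, smul_add, smul_sub, smul_smul]
        have e3 : r * (Complex.I * 2) = 2 * (r * Complex.I) := by ring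
        rw [e3]; abel
      rw [e2]
      set D := Δ - r • (Complex.I • G) with hD
      have i1 : ‖A D‖ ≤ ‖A‖ * ‖D‖ := A.le_opNorm _
      have i2 : ‖Q (W b x) D‖ ≤ ‖Q‖ * K * ‖D‖ := by
        refine (Q.le_opNorm₂ _ _).trans ?_
        have := hWK b hb x hx
        gcongr
      have i3 : ‖Q Δ Δ‖ ≤ ‖Q‖ * (‖y b' - y b‖ * e1) ^ 2 := by
        refine (Q.le_opNorm₂ _ _).trans ?_
        have i4 := hlip b' hb' x hx
        rw [mul_assoc, sq]
        gcongr
      have i5 : ‖(2 : ℂ) • Q (W b x) D‖ = 2 * ‖Q (W b x) D‖ := by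
        rw [norm_smul]; norm_num
      refine (norm_add_le _ _).trans ?_
      refine add_le_add ((norm_add_le _ _).trans ?_) i3
      rw [i5, hC]
      nlinarith [norm_nonneg D, mul_nonneg (mul_nonneg hK (norm_nonneg Q)) (norm_nonneg D)]
  have hyd := hy b hb
  have hyO : (fun b' => y b' - y b) =O[𝓝[Icc 0 s] b] fun b' => b' - b :=
    hyd.hasFDerivWithinAt.isBigO_sub
  have hyo : (fun b' => y b' - y b - ((b' - b : ℝ) : ℂ) • (Complex.I • quad A Q (y b)))
      =o[𝓝[Icc 0 s] b] fun b' => b' - b := by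
    simpa only [Complex.coe_smul] using hasDerivWithinAt_iff_isLittleO.1 hyd
  have hsq : (fun b' => ‖y b' - y b‖ ^ 2) =o[𝓝[Icc 0 s] b] fun b' => b' - b := by
    have h1 : (fun b' => ‖y b' - y b‖ ^ 2) =O[𝓝[Icc 0 s] b] fun b' => ‖b' - b‖ ^ 2 :=
      (hyO.norm_norm).pow 2
    have h2 : (fun b' : ℝ => ‖b' - b‖ ^ 2) =o[𝓝[Icc 0 s] b] fun b' => b' - b :=
      (Asymptotics.isLittleO_pow_sub_sub b (by norm_num)).mono nhdsWithin_le_nhds
    exact h1.trans_isLittleO h2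
  have hall : (fun b' => (‖y b' - y b - ((b' - b : ℝ) : ℂ) • (Complex.I • quad A Q (y b))‖ +
        ‖Q‖ * (‖y b' - y b‖ * e1) ^ 2) * e1) =o[𝓝[Icc 0 s] b] fun b' => b' - b := by
    have h3 : (fun b' => e1 * ‖y b' - y b - ((b' - b : ℝ) : ℂ) • (Complex.I • quad A Q (y b))‖ +
        (‖Q‖ * e1 ^ 2 * e1) * ‖y b' - y b‖ ^ 2) =o[𝓝[Icc 0 s] b] fun b' => b' - b :=
      (hyo.norm_left.const_mul_left _).add (hsq.const_mul_left _)
    refine h3.congr_left fun b' => ?_
    ring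
  rw [hasDerivWithinAt_iff_isLittleO]
  simp only [← Complex.coe_smul]
  refine Asymptotics.IsBigO.trans_isLittleO ?_ hall
  refine Asymptotics.IsBigO.of_bound 1 ?_
  filter_upwards [self_mem_nhdsWithin] with b' hb'
  rw [one_mul]
  exact (hsec b' hb').trans (le_abs_self _)

end Abstract

/-! ### Truncation -/

/-- basis vector -/
noncomputable def X.basis (k : ℤ) : X :=
  X.mk (fun j => if j = k then 1 else 0) (by
    apply summable_of_hasFiniteSupport
    refine (finite_singleton k).subset ?_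
    intro j hj
    by_contra hne
    apply hj
    have : j ≠ k := hne
    simp [this])

theorem X.basis_apply (k j : ℤ) : X.basis k j = if j = k then 1 else 0 := rfl

/-- cut-off of a sequence -/
noncomputable def X.cut (N : ℕ) (a : X) : X :=
  X.mk (fun k => if |k| ≤ N then a k else 0) (by
    refine Summable.of_nonneg_of_le (fun _ => norm_nonneg _) (fun k => ?_) a.summable
    split_ifs
    · exact le_rfl
    · simp)

theorem X.cut_apply (N : ℕ) (a : X) (k : ℤ) : X.cut N a k = if |k| ≤ N then a k else 0 := rfl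

theorem X.norm_cut_le (N : ℕ) (a : X) : ‖X.cut N a‖ ≤ ‖a‖ := by
  apply X.norm_le_of_forall
  intro k
  rw [X.cut_apply]
  split_ifs
  · exact le_rfl
  · simp

theorem abs_le_eventually (k : ℤ) : ∀ᶠ N : ℕ in atTop, |k| ≤ N := by
  filter_upwards [eventually_ge_atTop k.natAbs] with N hN
  rw [Int.abs_eq_natAbs]
  exact_mod_cast hN

theorem X.tendsto_cut (a : X) : Tendsto (fun N => X.cut N a) atTop (𝓝 a) := by
  apply X.tendsto_of_dominated a.summable
  · refine Eventually.of_forall fun N k => ?_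
    rw [X.cut_apply]
    split_ifs
    · exact le_rfl
    · simp
  · intro k
    apply tendsto_const_nhds.congr'
    filter_upwards [abs_le_eventually k] with N hN
    rw [X.cut_apply, if_pos hN]

/-- truncated Laplacian -/
noncomputable def LN (N : ℕ) : X →L[ℂ] X :=
  ∑ k ∈ Finset.Icc (-(N:ℤ)) N, (-(k:ℂ)^2) • (X.coord k).smulRight (X.basis k)

theorem sum_basis_apply (N : ℕ) (f : ℤ → ℂ) (j : ℤ) :
    (∑ k ∈ Finset.Icc (-(N:ℤ)) N, f k • X.basis k) j = if |j| ≤ N then f j else 0 := by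
  have h1 : (∑ k ∈ Finset.Icc (-(N:ℤ)) N, f k • X.basis k) j =
      ∑ k ∈ Finset.Icc (-(N:ℤ)) N, f k * (if j = k then 1 else 0) := by
    rw [← X.coord_apply, map_sum]
    rfl
  rw [h1]
  simp only [mul_ite, mul_one, mul_zero]
  rw [Finset.sum_ite_eq]
  simp only [Finset.mem_Icc, abs_le]

theorem LN_apply (N : ℕ) (a : X) (j : ℤ) :
    LN N a j = if |j| ≤ N then -(j:ℂ)^2 * a j else 0 := by
  have h1 : LN N a = ∑ k ∈ Finset.Icc (-(N:ℤ)) N, (-(k:ℂ)^2 * a k) • X.basis k := by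
    simp only [LN, sum_apply]
    apply Finset.sum_congr rfl
    intro k _
    show (-(k:ℂ)^2) • ((X.coord k a) • X.basis k) = _
    rw [smul_smul]; rfl
  rw [h1, sum_basis_apply]

theorem B_trunc_zero (N : ℕ) (a b : X) {k : ℤ} (hk : ¬ |k| ≤ N) : B (Ker.trunc N) a b k = 0 := by
  rw [B_apply]
  have : ∀ j : ℤ, (Ker.trunc N).w j (k - j) * (a j * b (k - j)) = 0 := by
    intro j
    have h : (Ker.trunc N).w j (k - j) = 0 := by
      show (if |j| ≤ (N:ℤ) ∧ |k - j| ≤ N ∧ |j + (k - j)| ≤ N then (1:ℂ) else 0) = 0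
      rw [if_neg]
      rintro ⟨-, -, h3⟩
      apply hk
      rwa [add_sub_cancel] at h3
    rw [h, zero_mul]
  simp [this]

/-- the truncated vector field -/
noncomputable def FN (N : ℕ) : X → X := quad (LN N) (B (Ker.trunc N))

theorem FN_apply (N : ℕ) (a : X) (k : ℤ) :
    FN N a k = if |k| ≤ N then -(k:ℂ)^2 * a k + B (Ker.trunc N) a a k else 0 := by
  rw [FN, quad, X.add_apply, LN_apply]
  split_ifs with h
  · rfl
  · rw [B_trunc_zero N a a h, add_zero]

theorem IsSol.supp {c : ℂ} {N : ℕ} {T : ℝ} {u : ℝ → X}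
    (hu : IsSol c (Ker.trunc N) T u) (h0 : ∀ k : ℤ, ¬ |k| ≤ N → u 0 k = 0) :
    ∀ t ∈ Icc 0 T, ∀ k : ℤ, ¬ |k| ≤ N → u t k = 0 := by
  intro t ht k hk
  have h := mode_ineq (T := T) (d := fun t => u t k) (g := fun _ => 0) (lam := c * (-(k:ℂ)^2))
    (hu.coord_cont k) continuousOn_const (fun t ht => by
      have h1 := hu.deriv k t ht
      refine h1.congr_deriv ?_
      rw [B_trunc_zero N _ _ hk]; ring) t ht
  simpa [h0 k hk] using h

theorem IsSol.toFN {c : ℂ} {N : ℕ} {T : ℝ} {u : ℝ → X}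
    (hu : IsSol c (Ker.trunc N) T u) (h0 : ∀ k : ℤ, ¬ |k| ≤ N → u 0 k = 0) :
    ∀ t ∈ Icc 0 T, HasDerivWithinAt u (c • FN N (u t)) (Icc 0 T) t := by
  have hs := hu.supp h0
  have hrep : ∀ t ∈ Icc 0 T, u t = ∑ k ∈ Finset.Icc (-(N:ℤ)) N, u t k • X.basis k := by
    intro t ht
    apply X.ext'; intro j
    rw [sum_basis_apply]
    split_ifs with h
    · rfl
    · exact hs t ht j h
  intro t ht
  have h1 : HasDerivWithinAt (fun t => ∑ k ∈ Finset.Icc (-(N:ℤ)) N, u t k • X.basis k)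
      (∑ k ∈ Finset.Icc (-(N:ℤ)) N,
        (c * (-(k:ℂ)^2 * u t k + B (Ker.trunc N) (u t) (u t) k)) • X.basis k) (Icc 0 T) t :=
    HasDerivWithinAt.fun_sum fun k _ => (hu.deriv k t ht).smul_const (X.basis k)
  have h2 := h1.congr (f₁ := u) hrep (hrep t ht)
  refine h2.congr_deriv ?_
  apply X.ext'; intro j
  rw [sum_basis_apply, X.smul_apply, FN_apply]
  split_ifs
  · rfl
  · simp

theorem isSol_of_FN {c : ℂ} {N : ℕ} {T : ℝ} {u : ℝ → X}
    (hu : ∀ t ∈ Icc 0 T, HasDerivWithinAt u (c • FN N (u t)) (Icc 0 T) t)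
    (hs : ∀ t ∈ Icc 0 T, ∀ k : ℤ, ¬ |k| ≤ N → u t k = 0) : IsSol c (Ker.trunc N) T u := by
  refine ⟨fun t ht => (hu t ht).continuousWithinAt, fun k t ht => ?_⟩
  have h1 : HasDerivWithinAt (fun t => u t k) ((c • FN N (u t)) k) (Icc 0 T) t :=
    ((X.coord k).restrictScalars ℝ).hasFDerivAt.comp_hasDerivWithinAt t (hu t ht)
  refine h1.congr_deriv ?_
  rw [X.smul_apply, FN_apply]
  split_ifs with h
  · rfl
  · rw [hs t ht k h, B_trunc_zero N _ _ h]; ring

/-- the flows commute for the truncated equation -/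
theorem comm_trunc {M ρ : ℝ} (hM : 0 < M) (hMρ : 64 * M * ρ ≤ 1) (N : ℕ)
    {v : X} (hv : ‖v‖ ≤ M) (hvs : ∀ k : ℤ, ¬ |k| ≤ N → v k = 0)
    {s σ : ℝ} (hs : s ∈ Icc 0 ρ) (hσ : σ ∈ Icc 0 ρ) :
    ∃ y q g z : ℝ → X, IsSol Complex.I (Ker.trunc N) s y ∧ y 0 = v ∧
      IsSol 1 (Ker.trunc N) σ q ∧ q 0 = y s ∧ IsSol 1 (Ker.trunc N) σ g ∧ g 0 = v ∧
      IsSol Complex.I (Ker.trunc N) s z ∧ z 0 = g σ ∧ q σ = z s ∧
      (∀ t ∈ Icc 0 s, ‖y t‖ ≤ 4 * M) ∧ (∀ t ∈ Icc 0 σ, ‖q t‖ ≤ 4 * M) ∧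
      (∀ t ∈ Icc 0 σ, ‖g t‖ ≤ 4 * M) ∧ (∀ t ∈ Icc 0 s, ‖z t‖ ≤ 4 * M) := by
  have hs0 := hs.1
  have hσ0 := hσ.1
  obtain ⟨y, hy, hy0, hyM⟩ := local_exists (c := Complex.I) (by simp) (by simp) (Ker.trunc N)
    hM hs0 (by nlinarith [hs.2]) hv
  have hex : ∀ b ∈ Icc 0 s, ∃ u : ℝ → X, IsSol 1 (Ker.trunc N) σ u ∧ u 0 = y b ∧
      ∀ t ∈ Icc 0 σ, ‖u t‖ ≤ 2 * (2 * M) := fun b hb =>
    local_exists (by simp) (by simp) (Ker.trunc N) (by positivity) hσ0 (by nlinarith [hσ.2])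
      (hyM b hb)
  choose! W hW hW0 hWM using hex
  have hysupp : ∀ b ∈ Icc 0 s, ∀ k : ℤ, ¬ |k| ≤ N → y b k = 0 :=
    hy.supp (by rw [hy0]; exact hvs)
  have hyF := hy.toFN (by rw [hy0]; exact hvs)
  have hWs0 : ∀ b ∈ Icc 0 s, ∀ k : ℤ, ¬ |k| ≤ N → W b 0 k = 0 := fun b hb => by
    rw [hW0 b hb]; exact hysupp b hb
  have hWF : ∀ b ∈ Icc 0 s, ∀ a ∈ Icc 0 σ, HasDerivWithinAt (W b) (FN N (W b a)) (Icc 0 σ) a := by
    intro b hb a ha
    have := (hW b hb).toFN (hWs0 b hb) a ha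
    rwa [one_smul] at this
  have htr := transport (LN N) (B (Ker.trunc N)) (B_comm _) (K := 2 * (2 * M)) (by positivity)
    hyF hWF hW0 hWM
  have h0s : (0:ℝ) ∈ Icc 0 s := ⟨le_rfl, hs0⟩
  have hss : s ∈ Icc 0 s := ⟨hs0, le_rfl⟩
  have hσσ : σ ∈ Icc 0 σ := ⟨hσ0, le_rfl⟩
  refine ⟨y, W s, W 0, fun b => W b σ, hy, hy0, hW s hss, hW0 s hss, hW 0 h0s,
    (hW0 0 h0s).trans hy0, ?_, rfl, rfl, fun t ht => ?_, fun t ht => ?_, fun t ht => ?_,
    fun t ht => ?_⟩
  · apply isSol_of_FN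
    · exact htr σ hσσ
    · intro b hb
      exact (hW b hb).supp (hWs0 b hb) σ hσσ
  · linarith [hyM t ht]
  · linarith [hWM s hss t ht]
  · linarith [hWM 0 h0s t ht]
  · linarith [hWM t ht σ hσσ]

/-! ### Removing the truncation -/

theorem tendsto_B_trunc (a : X) :
    Tendsto (fun N => B (Ker.trunc N) a a) atTop (𝓝 (B Ker.one a a)) := by
  apply X.tendsto_of_dominated (summable_conv_prod a a).prod
  · refine Eventually.of_forall fun N k => ?_
    rw [B_apply]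
    exact norm_term_le _ a a k
  · intro k
    simp only [B_apply]
    apply tendsto_tsum_of_dominated_convergence (summable_conv_row a a k)
    · intro j
      apply tendsto_const_nhds.congr'
      filter_upwards [abs_le_eventually j, abs_le_eventually (k - j), abs_le_eventually k]
        with N h1 h2 h3
      have h : (Ker.trunc N).w j (k - j) = 1 := by
        show (if |j| ≤ (N:ℤ) ∧ |k - j| ≤ N ∧ |j + (k - j)| ≤ N then (1:ℂ) else 0) = 1
        rw [if_pos]
        refine ⟨h1, h2, ?_⟩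
        rwa [add_sub_cancel]
      rw [h]; rfl
    · refine Eventually.of_forall fun N j => ?_
      rw [norm_mul, norm_mul]
      have := (Ker.trunc N).le j (k - j)
      have h2 : 0 ≤ ‖a j‖ * ‖a (k - j)‖ := by positivity
      nlinarith

theorem B_diff_le (ω : Ker) (a b : X) : ‖B ω a a - B ω b b‖ ≤ ‖a + b‖ * ‖a - b‖ := by
  have h2 : B ω a a - B ω b b = B ω (a + b) (a - b) := by
    simp only [map_add, map_sub, add_apply]
    rw [B_comm ω b a]; abel
  rw [h2]
  exact norm_B_le _ _ _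

theorem trunc_unif {T : ℝ} {u : ℝ → X} (hu : ContinuousOn u (Icc 0 T)) {ε : ℝ} (hε : 0 < ε) :
    ∀ᶠ N : ℕ in atTop, ∀ t ∈ Icc 0 T,
      ‖B Ker.one (u t) (u t) - B (Ker.trunc N) (u t) (u t)‖ < ε := by
  have h1 : TendstoLocallyUniformlyOn (fun (N : ℕ) t => B (Ker.trunc N) (u t) (u t))
      (fun t => B Ker.one (u t) (u t)) atTop (Icc 0 T) := by
    rw [Metric.tendstoLocallyUniformlyOn_iff]
    intro ε hε x hx
    have hc : Tendsto (fun y => ‖u y + u x‖ * ‖u y - u x‖) (𝓝[Icc 0 T] x) (𝓝 0) := by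
      have h2 : ContinuousWithinAt (fun y => ‖u y + u x‖ * ‖u y - u x‖) (Icc 0 T) x :=
        ((hu x hx).add continuousWithinAt_const).norm.mul
          ((hu x hx).sub continuousWithinAt_const).norm
      have h3 := h2.tendsto
      simpa using h3
    have he : ∀ᶠ y in 𝓝[Icc 0 T] x, ‖u y + u x‖ * ‖u y - u x‖ < ε / 3 :=
      hc.eventually_lt_const (by positivity)
    refine ⟨_, he, ?_⟩
    have hp := tendsto_B_trunc (u x)
    rw [Metric.tendsto_atTop] at hp
    obtain ⟨N0, hN0⟩ := hp (ε / 3) (by positivity)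
    filter_upwards [eventually_ge_atTop N0] with N hN y hy
    have i1 : ‖B Ker.one (u y) (u y) - B Ker.one (u x) (u x)‖ < ε / 3 :=
      (B_diff_le _ _ _).trans_lt hy
    have i2 : ‖B (Ker.trunc N) (u y) (u y) - B (Ker.trunc N) (u x) (u x)‖ < ε / 3 :=
      (B_diff_le _ _ _).trans_lt hy
    have i3 := hN0 N hN
    rw [dist_eq_norm] at i3 ⊢
    calc ‖B Ker.one (u y) (u y) - B (Ker.trunc N) (u y) (u y)‖
        = ‖(B Ker.one (u y) (u y) - B Ker.one (u x) (u x)) -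
          (B (Ker.trunc N) (u y) (u y) - B (Ker.trunc N) (u x) (u x)) -
          (B (Ker.trunc N) (u x) (u x) - B Ker.one (u x) (u x))‖ := by congr 1; abel
      _ ≤ ‖B Ker.one (u y) (u y) - B Ker.one (u x) (u x)‖ +
          ‖B (Ker.trunc N) (u y) (u y) - B (Ker.trunc N) (u x) (u x)‖ +
          ‖B (Ker.trunc N) (u x) (u x) - B Ker.one (u x) (u x)‖ :=
          (norm_sub_le _ _).trans (by gcongr; exact norm_sub_le _ _)
      _ < ε := by linarith
  have h2 := (tendstoLocallyUniformlyOn_iff_tendstoUniformlyOn_of_compact isCompact_Icc).1 h1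
  rw [Metric.tendstoUniformlyOn_iff] at h2
  filter_upwards [h2 ε hε] with N hN t ht
  have := hN t ht
  rwa [dist_eq_norm] at this

/-- stability under removal of the truncation -/
theorem limit_trunc {c : ℂ} (hc : 0 ≤ c.re) (hc1 : ‖c‖ ≤ 1) {T K : ℝ} {u : ℝ → X}
    (hu : IsSol c Ker.one T u) {w : ℕ → ℝ → X} (hw : ∀ N, IsSol c (Ker.trunc N) T (w N))
    (hK : ∀ N, ∀ t ∈ Icc 0 T, ‖w N t‖ ≤ K)
    (h0 : Tendsto (fun N => w N 0) atTop (𝓝 (u 0))) :
    ∀ t ∈ Icc 0 T, Tendsto (fun N => w N t) atTop (𝓝 (u t)) := by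
  intro t ht
  have hT0 : 0 ≤ T := ht.1.trans ht.2
  obtain ⟨K', hK'⟩ := isCompact_Icc.exists_bound_of_continuousOn hu.cont
  have hKK : 0 ≤ K' + K := by
    have h1 := (norm_nonneg _).trans (hK' 0 ⟨le_rfl, hT0⟩)
    have h2 := (norm_nonneg _).trans (hK 0 0 ⟨le_rfl, hT0⟩)
    linarith
  have key : ∀ ε > 0, ∀ᶠ N : ℕ in atTop,
      ‖u t - w N t‖ ≤ (‖u 0 - w N 0‖ + ε * t) * Real.exp ((K' + K) * t) := by
    intro ε hε
    filter_upwards [trunc_unif hu.cont hε] with N hN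
    have h := lin_ineq (T := T) (γ := 0) (b := K' + K) (ρ := ε) hKK hε.le
      (D := fun t => u t - w N t) (hu.cont.sub (hw N).cont)
      (lam := fun k => c * (-(k:ℂ)^2)) ?_
      (g := fun t k => c * ((B Ker.one (u t) (u t) - B (Ker.trunc N) (u t) (u t) +
        B (Ker.trunc N) (u t + w N t) (u t - w N t)) k)) ?_ ?_ ?_ t ht
    · simpa [max_eq_left hKK] using h
    · intro k
      have : c * (-(k:ℂ)^2) = c * ((-((k:ℝ)^2) : ℝ) : ℂ) := by push_cast; ring
      rw [this, Complex.re_mul_ofReal]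
      nlinarith [sq_nonneg (k:ℝ), mul_nonneg hc (sq_nonneg (k:ℝ))]
    · intro k
      have h1 : ContinuousOn (fun t => B Ker.one (u t) (u t) - B (Ker.trunc N) (u t) (u t) +
          B (Ker.trunc N) (u t + w N t) (u t - w N t)) (Icc 0 T) :=
        ((continuousOn_B _ hu.cont hu.cont).sub (continuousOn_B _ hu.cont hu.cont)).add
        (continuousOn_B _ (hu.cont.add (hw N).cont) (hu.cont.sub (hw N).cont))
      exact continuousOn_const.mul ((X.coord k).continuous.comp_continuousOn h1)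
    · intro k t ht
      have h1 := (hu.deriv k t ht).sub ((hw N).deriv k t ht)
      refine HasDerivWithinAt.congr_deriv h1 ?_
      have h2 : B (Ker.trunc N) (u t + w N t) (u t - w N t) =
          B (Ker.trunc N) (u t) (u t) - B (Ker.trunc N) (w N t) (w N t) := by
        simp only [map_add, map_sub, add_apply]
        rw [B_comm _ (w N t) (u t)]; abel
      rw [h2]
      simp only [X.sub_apply, X.add_apply]
      ring
    · intro t ht F
      set G := B Ker.one (u t) (u t) - B (Ker.trunc N) (u t) (u t) +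
        B (Ker.trunc N) (u t + w N t) (u t - w N t) with hG
      have h1 : ∑ k ∈ F, ‖c * (G k)‖ ≤ ∑ k ∈ F, ‖G k‖ := by
        apply Finset.sum_le_sum; intro k _
        rw [norm_mul]; exact mul_le_of_le_one_left (norm_nonneg _) hc1
      have h2 := X.sum_le G F
      have h3 : ‖G‖ ≤ ε + (K' + K) * ‖u t - w N t‖ := by
        refine (norm_add_le _ _).trans ?_
        refine add_le_add (hN t ht).le ((norm_B_le _ _ _).trans ?_)
        have h4 : ‖u t + w N t‖ ≤ K' + K :=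
          (norm_add_le _ _).trans (add_le_add (hK' t ht) (hK N t ht))
        gcongr
      linarith
  rw [Metric.tendsto_atTop]
  intro δ hδ
  set e1 := Real.exp ((K' + K) * t) with he1
  have he1p : 0 < e1 := Real.exp_pos _
  have hεp : 0 < δ / (4 * (t + 1) * e1) := by
    have := ht.1
    positivity
  have hd0 : ∀ᶠ N : ℕ in atTop, ‖u 0 - w N 0‖ < δ / (4 * e1) := by
    have := (Metric.tendsto_atTop.1 h0) (δ / (4 * e1)) (by positivity)
    obtain ⟨N0, hN0⟩ := this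
    filter_upwards [eventually_ge_atTop N0] with N hN
    have := hN0 N hN
    rwa [dist_comm, dist_eq_norm] at this
  have hfin : ∀ᶠ N : ℕ in atTop, dist (w N t) (u t) < δ := by
    filter_upwards [key _ hεp, hd0] with N h1 h2
    rw [dist_comm, dist_eq_norm]
    refine h1.trans_lt ?_
    have i1 : ‖u 0 - w N 0‖ * e1 < δ / 4 := by
      calc ‖u 0 - w N 0‖ * e1 < δ / (4 * e1) * e1 := by gcongr
        _ = δ / 4 := by field_simp
    have i2 : δ / (4 * (t + 1) * e1) * t * e1 ≤ δ / 4 := by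
      have ht0 := ht.1
      have i3 : δ / (4 * (t + 1) * e1) * t * e1 = δ / 4 * (t / (t + 1)) := by
        field_simp
      rw [i3]
      have i4 : t / (t + 1) ≤ 1 := by
        rw [div_le_one (by positivity)]; linarith
      nlinarith
    rw [add_mul]
    linarith
  exact eventually_atTop.1 hfin

/-- SPEC B: the heat flow and the Schroedinger flow commute locally. -/
theorem comm_local {M ρ : ℝ} (hM : 0 < M) (hρ : 0 ≤ ρ) (hMρ : 64 * M * ρ ≤ 1)
    {v : X} (hv : ‖v‖ ≤ M) {s σ : ℝ} (hs : s ∈ Icc 0 ρ) (hσ : σ ∈ Icc 0 ρ)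
    {y q g z : ℝ → X}
    (hy : IsSol Complex.I Ker.one s y) (hy0 : y 0 = v)
    (hq : IsSol 1 Ker.one σ q) (hq0 : q 0 = y s)
    (hg : IsSol 1 Ker.one σ g) (hg0 : g 0 = v)
    (hz : IsSol Complex.I Ker.one s z) (hz0 : z 0 = g σ) :
    q σ = z s := by
  have hex := fun N : ℕ => comm_trunc hM hMρ N (v := X.cut N v)
    ((X.norm_cut_le N v).trans hv) (fun k hk => by rw [X.cut_apply, if_neg hk]) hs hσ
  choose yN qN gN zN hyN hyN0 hqN hqN0 hgN hgN0 hzN hzN0 heq hyK hqK hgK hzK using hex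
  have hss : s ∈ Icc 0 s := ⟨hs.1, le_rfl⟩
  have hσσ : σ ∈ Icc 0 σ := ⟨hσ.1, le_rfl⟩
  have hcut := X.tendsto_cut v
  have l1 := limit_trunc (by simp) (by simp) hy hyN hyK (by simpa only [hyN0, hy0] using hcut) s hss
  have l2 := limit_trunc (by simp) (by simp) hq hqN hqK (by simpa only [hqN0, hq0] using l1) σ hσσ
  have l3 := limit_trunc (by simp) (by simp) hg hgN hgK (by simpa only [hgN0, hg0] using hcut) σ hσσ
  have l4 := limit_trunc (by simp) (by simp) hz hzN hzK (by simpa only [hzN0, hz0] using l3) s hss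
  refine tendsto_nhds_unique l2 ?_
  simpa only [heq] using l4

end QNLS74
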