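import Mathlib

/-! The Banach space l^1(Z), twisted convolutions and Fourier multipliers. -/

open Filter Topology Set

namespace QNLS74

/-- absolutely summable sequences on the integers -/
abbrev X : Type := lp (fun _ : ℤ => ℂ) 1

theorem X.summable (a : X) : Summable fun k => ‖a k‖ := by
  have h := (lp.memℓp a)
  rw [memℓp_gen_iff (by simp)] at h
  simpa using h

theorem X.norm_eq (a : X) : ‖a‖ = ∑' k, ‖a k‖ := by
  rw [lp.norm_eq_tsum_rpow (by simp) a]; simp

/-- build an element of `X` from a summable sequence -/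
def X.mk (f : ℤ → ℂ) (hf : Summable fun k => ‖f k‖) : X :=
  ⟨f, by
    show Memℓp f 1
    rw [memℓp_gen_iff (by simp)]; simpa using hf⟩

@[simp] theorem X.mk_apply (f : ℤ → ℂ) (hf : Summable fun k => ‖f k‖) (k : ℤ) :
    (X.mk f hf) k = f k := rfl

theorem X.norm_mk (f : ℤ → ℂ) (hf : Summable fun k => ‖f k‖) :
    ‖X.mk f hf‖ = ∑' k, ‖f k‖ := by rw [X.norm_eq]; rfl

theorem X.norm_apply_le (a : X) (k : ℤ) : ‖a k‖ ≤ ‖a‖ := by
  rw [X.norm_eq]
  exact a.summable.le_tsum k (fun _ _ => norm_nonneg _)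

theorem X.sum_le (a : X) (F : Finset ℤ) : ∑ k ∈ F, ‖a k‖ ≤ ‖a‖ := by
  rw [X.norm_eq]
  exact a.summable.sum_le_tsum F (fun _ _ => norm_nonneg _)

theorem X.norm_le_of_sum_le (a : X) (C : ℝ) (h : ∀ F : Finset ℤ, ∑ k ∈ F, ‖a k‖ ≤ C) :
    ‖a‖ ≤ C := by
  rw [X.norm_eq]
  exact a.summable.tsum_le_of_sum_le h

theorem X.norm_le_of_forall (a b : X) (h : ∀ k, ‖a k‖ ≤ ‖b k‖) : ‖a‖ ≤ ‖b‖ :=
  X.norm_le_of_sum_le a _ fun F => (Finset.sum_le_sum fun k _ => h k).trans (b.sum_le F)

/-- coordinate functional -/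
noncomputable def X.coord (k : ℤ) : X →L[ℂ] ℂ :=
  LinearMap.mkContinuous
    { toFun := fun a => a k, map_add' := fun _ _ => rfl, map_smul' := fun _ _ => rfl } 1
    (fun a => by rw [one_mul]; exact a.norm_apply_le k)

@[simp] theorem X.coord_apply (k : ℤ) (a : X) : X.coord k a = a k := rfl

@[simp] theorem X.add_apply (a b : X) (k : ℤ) : (a + b) k = a k + b k := rfl
@[simp] theorem X.sub_apply (a b : X) (k : ℤ) : (a - b) k = a k - b k := rfl
@[simp] theorem X.smul_apply (c : ℂ) (a : X) (k : ℤ) : (c • a) k = c * a k := rfl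
@[simp] theorem X.zero_apply (k : ℤ) : (0 : X) k = 0 := rfl
@[simp] theorem X.neg_apply (a : X) (k : ℤ) : (-a) k = - a k := rfl

theorem X.ext' {a b : X} (h : ∀ k, a k = b k) : a = b := by
  apply lp.ext; funext k; exact h k

/-- symmetric kernels bounded by one -/
structure Ker where
  w : ℤ → ℤ → ℂ
  le : ∀ j l, ‖w j l‖ ≤ 1
  symm : ∀ j l, w j l = w l j

theorem summable_conv_prod (a b : X) :
    Summable fun p : ℤ × ℤ => ‖a p.2‖ * ‖b (p.1 - p.2)‖ := by
  have h := Summable.mul_of_nonneg a.summable b.summable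
    (fun _ => norm_nonneg _) (fun _ => norm_nonneg _)
  let e : ℤ × ℤ ≃ ℤ × ℤ :=
    { toFun := fun p => (p.2, p.1 - p.2)
      invFun := fun q => (q.1 + q.2, q.1)
      left_inv := fun p => by simp
      right_inv := fun q => by simp }
  exact (e.summable_iff (f := fun q : ℤ × ℤ => ‖a q.1‖ * ‖b q.2‖)).2 h

theorem tsum_conv_prod (a b : X) :
    ∑' k : ℤ, ∑' j : ℤ, ‖a j‖ * ‖b (k - j)‖ = ‖a‖ * ‖b‖ := by
  have h := Summable.mul_of_nonneg a.summable b.summable
    (fun _ => norm_nonneg _) (fun _ => norm_nonneg _)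
  let e : ℤ × ℤ ≃ ℤ × ℤ :=
    { toFun := fun p => (p.2, p.1 - p.2)
      invFun := fun q => (q.1 + q.2, q.1)
      left_inv := fun p => by simp
      right_inv := fun q => by simp }
  rw [X.norm_eq, X.norm_eq, Summable.tsum_mul_tsum a.summable b.summable h]
  rw [← (summable_conv_prod a b).tsum_prod (f := fun p : ℤ × ℤ => ‖a p.2‖ * ‖b (p.1 - p.2)‖)]
  exact e.tsum_eq (f := fun q : ℤ × ℤ => ‖a q.1‖ * ‖b q.2‖)

theorem summable_conv_row (a b : X) (k : ℤ) :
    Summable fun j : ℤ => ‖a j‖ * ‖b (k - j)‖ :=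
  (summable_conv_prod a b).prod_factor k

theorem summable_term (ω : Ker) (a b : X) (k : ℤ) :
    Summable fun j : ℤ => ω.w j (k - j) * (a j * b (k - j)) := by
  refine Summable.of_norm_bounded (summable_conv_row a b k) fun j => ?_
  rw [norm_mul, norm_mul]
  have := ω.le j (k - j)
  have h2 : 0 ≤ ‖a j‖ * ‖b (k - j)‖ := by positivity
  nlinarith

theorem norm_term_le (ω : Ker) (a b : X) (k : ℤ) :
    ‖∑' j : ℤ, ω.w j (k - j) * (a j * b (k - j))‖ ≤ ∑' j : ℤ, ‖a j‖ * ‖b (k - j)‖ := by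
  refine tsum_of_norm_bounded (summable_conv_row a b k).hasSum fun j => ?_
  rw [norm_mul, norm_mul]
  have := ω.le j (k - j)
  have h2 : 0 ≤ ‖a j‖ * ‖b (k - j)‖ := by positivity
  nlinarith

theorem summable_conv (ω : Ker) (a b : X) :
    Summable fun k : ℤ => ‖∑' j : ℤ, ω.w j (k - j) * (a j * b (k - j))‖ :=
  Summable.of_nonneg_of_le (fun _ => norm_nonneg _) (norm_term_le ω a b)
    (summable_conv_prod a b).prod

/-- twisted convolution -/
noncomputable def B (ω : Ker) : X →L[ℂ] X →L[ℂ] X :=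
  LinearMap.mkContinuous₂
    (LinearMap.mk₂ ℂ
      (fun a b => X.mk (fun k => ∑' j : ℤ, ω.w j (k - j) * (a j * b (k - j))) (summable_conv ω a b))
      (fun a a' b => by
        apply X.ext'; intro k
        simp only [X.mk_apply, X.add_apply]
        rw [← (summable_term ω a b k).tsum_add (summable_term ω a' b k)]
        congr 1; funext j; ring)
      (fun c a b => by
        apply X.ext'; intro k
        simp only [X.mk_apply, X.smul_apply]
        rw [← tsum_mul_left]
        congr 1; funext j; ring)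
      (fun a b b' => by
        apply X.ext'; intro k
        simp only [X.mk_apply, X.add_apply]
        rw [← (summable_term ω a b k).tsum_add (summable_term ω a b' k)]
        congr 1; funext j; ring)
      (fun c a b => by
        apply X.ext'; intro k
        simp only [X.mk_apply, X.smul_apply]
        rw [← tsum_mul_left]
        congr 1; funext j; ring))
    1
    (fun a b => by
      rw [one_mul]
      show ‖X.mk _ (summable_conv ω a b)‖ ≤ _
      rw [X.norm_mk, ← tsum_conv_prod]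
      exact (summable_conv ω a b).tsum_le_tsum (norm_term_le ω a b) (summable_conv_prod a b).prod)

theorem B_apply (ω : Ker) (a b : X) (k : ℤ) :
    B ω a b k = ∑' j : ℤ, ω.w j (k - j) * (a j * b (k - j)) := rfl

theorem norm_B_le (ω : Ker) (a b : X) : ‖B ω a b‖ ≤ ‖a‖ * ‖b‖ := by
  show ‖X.mk _ (summable_conv ω a b)‖ ≤ _
  rw [X.norm_mk, ← tsum_conv_prod]
  exact (summable_conv ω a b).tsum_le_tsum (norm_term_le ω a b) (summable_conv_prod a b).prod

theorem B_comm (ω : Ker) (a b : X) : B ω a b = B ω b a := by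
  apply X.ext'; intro k
  rw [B_apply, B_apply]
  let e : ℤ ≃ ℤ := Equiv.subLeft k
  rw [← e.tsum_eq]
  congr 1; funext j
  show ω.w (k - j) (k - (k - j)) * (a (k - j) * b (k - (k - j))) = _
  rw [sub_sub_cancel, ω.symm]; ring

theorem continuous_B (ω : Ker) : Continuous fun p : X × X => B ω p.1 p.2 :=
  (B ω).continuous₂

theorem continuousOn_B (ω : Ker) {S : Set ℝ} {u v : ℝ → X} (hu : ContinuousOn u S)
    (hv : ContinuousOn v S) : ContinuousOn (fun t => B ω (u t) (v t)) S :=
  ((B ω).continuous.comp_continuousOn hu).clm_apply hv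

attribute [irreducible] B

/-- the trivial kernel: ordinary convolution -/
def Ker.one : Ker := ⟨fun _ _ => 1, by simp, by simp⟩

theorem B_one_apply (a b : X) (k : ℤ) : B Ker.one a b k = ∑' j : ℤ, a j * b (k - j) := by
  rw [B_apply]; simp [Ker.one]

/-- truncation kernel -/
noncomputable def Ker.trunc (N : ℕ) : Ker :=
  ⟨fun j l => if |j| ≤ N ∧ |l| ≤ N ∧ |j + l| ≤ N then 1 else 0, by
    intro j l; split_ifs <;> simp, by
    intro j l; simp only [add_comm j l]; congr 1; simp only [eq_iff_iff]; tauto⟩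

/-- weight kernel -/
noncomputable def Ker.weight (ν : ℝ) (hν : 1 ≤ ν) : Ker :=
  ⟨fun j l => ((ν ^ (j + l).natAbs / (ν ^ j.natAbs * ν ^ l.natAbs) : ℝ) : ℂ), by
    intro j l
    have h0 : 0 < ν := by linarith
    rw [Complex.norm_real, Real.norm_eq_abs, abs_of_nonneg (by positivity), ← pow_add,
      div_le_one (by positivity)]
    exact pow_le_pow_right₀ hν (Int.natAbs_add_le j l), by
    intro j l; rw [add_comm j l, mul_comm (ν ^ j.natAbs)]⟩

/-- quadratic difference identity -/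
theorem B_sub_B (ω : Ker) (a b : X) :
    B ω a a - B ω b b = (2 : ℂ) • B ω b (a - b) + B ω (a - b) (a - b) := by
  have h := B_comm ω a b
  simp only [map_sub, sub_apply]
  rw [h, two_smul]; abel

/-- solutions of `u' = c (u_xx + u^2)` (twisted by `ω`) in Fourier variables on `[0,T]` -/
structure IsSol (c : ℂ) (ω : Ker) (T : ℝ) (u : ℝ → X) : Prop where
  cont : ContinuousOn u (Icc 0 T)
  deriv : ∀ k : ℤ, ∀ t ∈ Icc (0:ℝ) T, HasDerivWithinAt (fun s => u s k)
    (c * (-(k:ℂ)^2 * u t k + B ω (u t) (u t) k)) (Icc 0 T) t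

theorem IsSol.mono {c : ℂ} {ω : Ker} {T T' : ℝ} {u : ℝ → X} (h : IsSol c ω T u) (hT : T' ≤ T) :
    IsSol c ω T' u :=
  ⟨h.cont.mono (Icc_subset_Icc_right hT), fun k t ht =>
    (h.deriv k t (Icc_subset_Icc_right hT ht)).mono (Icc_subset_Icc_right hT)⟩

theorem IsSol.shift {c : ℂ} {ω : Ker} {T a : ℝ} {u : ℝ → X} (h : IsSol c ω T u) (ha : 0 ≤ a) :
    IsSol c ω (T - a) (fun t => u (t + a)) := by
  have hm : MapsTo (fun t : ℝ => t + a) (Icc 0 (T - a)) (Icc 0 T) := by
    intro t ht; simp only [mem_Icc] at *; constructor <;> linarith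
  refine ⟨h.cont.comp (by fun_prop) hm, fun k t ht => ?_⟩
  have h1 := h.deriv k (t + a) (hm ht)
  have h2 : HasDerivWithinAt (fun t : ℝ => t + a) 1 (Icc 0 (T - a)) t :=
    (hasDerivAt_id t).add_const a |>.hasDerivWithinAt
  have h3 := h1.scomp t h2 hm
  rw [one_smul] at h3
  exact h3

theorem IsSol.congr {c : ℂ} {ω : Ker} {T : ℝ} {u v : ℝ → X} (h : IsSol c ω T u)
    (huv : ∀ t ∈ Icc 0 T, v t = u t) : IsSol c ω T v := by
  refine ⟨h.cont.congr huv, fun k t ht => ?_⟩
  rw [huv t ht]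
  exact (h.deriv k t ht).congr (fun s hs => by rw [huv s hs]) (by rw [huv t ht])

end QNLS74
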