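import Pool.Agent.QNLS74.Ell1

/-! Linear Duhamel inequality, Gronwall, uniqueness and stability. -/

open Filter Topology Set MeasureTheory

namespace QNLS74

/-- scalar comparison -/
theorem le_start_of_deriv {T : ℝ} {f f' : ℝ → ℝ} (hf : ContinuousOn f (Icc 0 T))
    (hf' : ∀ x ∈ Ico 0 T, HasDerivWithinAt f (f' x) (Ici x) x) (h : ∀ x ∈ Ico 0 T, f' x ≤ 0) :
    ∀ x ∈ Icc 0 T, f x ≤ f 0 := by
  intro x hx
  exact image_le_of_deriv_right_le_deriv_boundary (B := fun _ => f 0) (B' := fun _ => 0) hf hf'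
    le_rfl continuousOn_const (fun x _ => hasDerivWithinAt_const _ _ _) h hx

theorem Icc_nhds_Ici {T x : ℝ} (hx : x ∈ Ico 0 T) : Icc 0 T ∈ 𝓝[Ici x] x := by
  have : Icc x T ∈ 𝓝[Ici x] x := Icc_mem_nhdsGE hx.2
  exact mem_of_superset this (Icc_subset_Icc_left hx.1)

/-- the integral of a continuous function on `[0,T]` is right differentiable -/
theorem hasDerivWithinAt_integral {T : ℝ} {φ : ℝ → ℝ} (hφ : ContinuousOn φ (Icc 0 T)) :
    ContinuousOn (fun t => ∫ s in (0:ℝ)..t, φ s) (Icc 0 T) ∧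
    ∀ x ∈ Ico 0 T, HasDerivWithinAt (fun t => ∫ s in (0:ℝ)..t, φ s) (φ x) (Ici x) x := by
  have hint : ∀ a b, a ∈ Icc 0 T → b ∈ Icc 0 T → IntervalIntegrable φ volume a b := by
    intro a b ha hb
    exact (hφ.mono (uIcc_subset_Icc ha hb)).intervalIntegrable
  constructor
  · by_cases hT : 0 ≤ T
    · have h := intervalIntegral.continuousOn_primitive_interval (a := 0) (b := T) (f := φ)
        (μ := volume) (by
          rw [uIcc_of_le hT]
          exact hφ.integrableOn_Icc)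
      rwa [uIcc_of_le hT] at h
    · rw [Icc_eq_empty hT]; exact continuousOn_empty _
  · intro x hx
    have hx' : x ∈ Icc 0 T := Ico_subset_Icc_self hx
    have h0 : (0:ℝ) ∈ Icc 0 T := ⟨le_rfl, hx.1.trans hx.2.le⟩
    have hc : ContinuousWithinAt φ (Ici x) x :=
      (hφ x hx').mono_of_mem_nhdsWithin (Icc_nhds_Ici hx)
    have hm : StronglyMeasurableAtFilter φ (𝓝[>] x) volume := by
      refine ⟨Icc 0 T, ?_, ?_⟩
      · exact nhdsWithin_mono _ (Ioi_subset_Ici_self) (Icc_nhds_Ici hx)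
      · exact hφ.aestronglyMeasurable measurableSet_Icc
    exact intervalIntegral.integral_hasDerivWithinAt_right (hint 0 x h0 hx') hm
      (hc.mono Ioi_subset_Ici_self)

/-- Gronwall's inequality in integral form -/
theorem gronwall_int {T γ b ρ : ℝ} (hb : 0 ≤ b) (hρ : 0 ≤ ρ) {z : ℝ → ℝ}
    (hz : ContinuousOn z (Icc 0 T)) (hz0 : 0 ≤ z 0)
    (h : ∀ t ∈ Icc 0 T, z t ≤ Real.exp (γ * t) *
      (z 0 + ∫ s in (0:ℝ)..t, Real.exp (-(γ * s)) * (b * z s + ρ))) :
    ∀ t ∈ Icc 0 T, z t ≤ (z 0 + ρ * t) * Real.exp (max (γ + b) 0 * t) := by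
  set κ := max (γ + b) 0 with hκ
  set φ : ℝ → ℝ := fun s => Real.exp (-(γ * s)) * (b * z s + ρ) with hφd
  have hφ : ContinuousOn φ (Icc 0 T) := by
    have : ContinuousOn (fun s : ℝ => Real.exp (-(γ * s))) (Icc 0 T) := by fun_prop
    exact this.mul ((continuousOn_const.mul hz).add continuousOn_const)
  obtain ⟨hI1, hI2⟩ := hasDerivWithinAt_integral hφ
  set Φ : ℝ → ℝ := fun t => z 0 + ∫ s in (0:ℝ)..t, φ s with hΦ
  set Ψ : ℝ → ℝ := fun t => (z 0 + ρ * t) * Real.exp ((κ - γ) * t) with hΨ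
  have hΨd : ∀ x, HasDerivAt Ψ (ρ * Real.exp ((κ - γ) * x) +
      (z 0 + ρ * x) * (Real.exp ((κ - γ) * x) * (κ - γ))) x := by
    intro x
    have h1 : HasDerivAt (fun t : ℝ => z 0 + ρ * t) ρ x := by
      simpa using ((hasDerivAt_id x).const_mul ρ).const_add (z 0)
    have h2 : HasDerivAt (fun t : ℝ => Real.exp ((κ - γ) * t))
        (Real.exp ((κ - γ) * x) * (κ - γ)) x := by
      have := ((hasDerivAt_id x).const_mul (κ - γ)).exp
      simpa using this
    exact h1.mul h2
  have hkey : ∀ x ∈ Icc 0 T, Real.exp (-(b * x)) * (Φ x - Ψ x) ≤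
      Real.exp (-(b * 0)) * (Φ 0 - Ψ 0) := by
    refine le_start_of_deriv (f := fun x => Real.exp (-(b * x)) * (Φ x - Ψ x))
      (f' := fun x => Real.exp (-(b * x)) * (-b) * (Φ x - Ψ x) + Real.exp (-(b * x)) *
        (φ x - (ρ * Real.exp ((κ - γ) * x) +
      (z 0 + ρ * x) * (Real.exp ((κ - γ) * x) * (κ - γ))))) ?_ ?_ ?_
    · have h1 : ContinuousOn (fun x : ℝ => Real.exp (-(b * x))) (Icc 0 T) := by fun_prop
      have h2 : ContinuousOn Ψ (Icc 0 T) := fun x _ => (hΨd x).continuousAt.continuousWithinAt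
      exact h1.mul ((continuousOn_const.add hI1).sub h2)
    · intro x hx
      have h1 : HasDerivWithinAt (fun x : ℝ => Real.exp (-(b * x)))
          (Real.exp (-(b * x)) * (-b)) (Ici x) x := by
        have := (((hasDerivAt_id x).const_mul b).neg).exp
        simpa using this.hasDerivWithinAt
      have h2 : HasDerivWithinAt Φ (φ x) (Ici x) x := (hI2 x hx).const_add (z 0)
      exact h1.mul (h2.sub (hΨd x).hasDerivWithinAt)
    · intro x hx
      have hx' : x ∈ Icc 0 T := Ico_subset_Icc_self hx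
      have hE : 0 < Real.exp (-(b * x)) := Real.exp_pos _
      have h3 : φ x ≤ b * Φ x + ρ * Real.exp (-(γ * x)) := by
        have h4 := h x hx'
        have h5 : Real.exp (-(γ * x)) * z x ≤ Φ x := by
          calc Real.exp (-(γ * x)) * z x ≤ Real.exp (-(γ * x)) * (Real.exp (γ * x) * Φ x) := by
                gcongr
            _ = Φ x := by rw [← mul_assoc, ← Real.exp_add]; simp
        show Real.exp (-(γ * x)) * (b * z x + ρ) ≤ _
        nlinarith [mul_le_mul_of_nonneg_left h5 hb]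
      have h6 : ρ * Real.exp (-(γ * x)) ≤ ρ * Real.exp ((κ - γ) * x) := by
        apply mul_le_mul_of_nonneg_left _ hρ
        apply Real.exp_le_exp.2
        have : 0 ≤ κ * x := mul_nonneg (le_max_right _ _) hx.1
        nlinarith
      have h7 : b * Ψ x ≤ (z 0 + ρ * x) * (Real.exp ((κ - γ) * x) * (κ - γ)) := by
        have h8 : b ≤ κ - γ := by have := le_max_left (γ + b) 0; linarith
        have h9 : 0 ≤ (z 0 + ρ * x) * Real.exp ((κ - γ) * x) :=
          mul_nonneg (add_nonneg hz0 (mul_nonneg hρ hx.1)) (Real.exp_pos _).le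
        simp only [hΨ]
        nlinarith
      have h10 : -b * (Φ x - Ψ x) + (φ x - (ρ * Real.exp ((κ - γ) * x) +
          (z 0 + ρ * x) * (Real.exp ((κ - γ) * x) * (κ - γ)))) ≤ 0 := by nlinarith
      have := mul_le_mul_of_nonneg_left h10 hE.le
      nlinarith
  intro t ht
  have h1 := hkey t ht
  have h0 : Φ 0 - Ψ 0 = 0 := by simp [hΦ, hΨ]
  rw [h0, mul_zero] at h1
  have h2 : Φ t - Ψ t ≤ 0 := by
    by_contra hcon
    push Not at hcon
    have := mul_pos (Real.exp_pos (-(b * t))) hcon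
    linarith
  calc z t ≤ Real.exp (γ * t) * Φ t := h t ht
    _ ≤ Real.exp (γ * t) * Ψ t := by gcongr; linarith
    _ = (z 0 + ρ * t) * Real.exp (κ * t) := by
        simp only [hΨ]
        rw [mul_comm, mul_assoc, ← Real.exp_add]; congr 2; ring

/-- modewise Duhamel estimate -/
theorem mode_ineq {T : ℝ} {d g : ℝ → ℂ} {lam : ℂ} (hd : ContinuousOn d (Icc 0 T))
    (hg : ContinuousOn g (Icc 0 T))
    (hder : ∀ t ∈ Icc 0 T, HasDerivWithinAt d (lam * d t + g t) (Icc 0 T) t) :
    ∀ t ∈ Icc 0 T, ‖d t‖ ≤ Real.exp (lam.re * t) *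
      (‖d 0‖ + ∫ s in (0:ℝ)..t, Real.exp (-(lam.re * s)) * ‖g s‖) := by
  set φ : ℝ → ℝ := fun s => Real.exp (-(lam.re * s)) * ‖g s‖ with hφd
  have hφ : ContinuousOn φ (Icc 0 T) := by
    have : ContinuousOn (fun s : ℝ => Real.exp (-(lam.re * s))) (Icc 0 T) := by fun_prop
    exact this.mul hg.norm
  obtain ⟨hI1, hI2⟩ := hasDerivWithinAt_integral hφ
  have hE : ∀ x : ℝ, HasDerivAt (fun s : ℝ => Complex.exp (-(lam * s)))
      (Complex.exp (-(lam * x)) * (-lam)) x := by
    intro x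
    have h1 : HasDerivAt (fun s : ℝ => -(lam * (s:ℂ))) (-lam) x := by
      have h0 := ((Complex.ofRealCLM.hasDerivAt (x := x)).const_mul lam).neg
      have h00 : -(lam * Complex.ofRealCLM 1) = -lam := by simp
      rw [h00] at h0
      exact h0
    exact h1.cexp
  have hn : ∀ x : ℝ, ‖Complex.exp (-(lam * x))‖ = Real.exp (-(lam.re * x)) := by
    intro x; rw [Complex.norm_exp]; simp
  have key := image_norm_le_of_norm_deriv_right_le_deriv_boundary'
    (f := fun t => Complex.exp (-(lam * t)) * d t)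
    (f' := fun t => Complex.exp (-(lam * t)) * g t) (a := 0) (b := T)
    (B := fun t => ‖d 0‖ + ∫ s in (0:ℝ)..t, φ s) (B' := φ)
    (by
      have h1 : ContinuousOn (fun t : ℝ => Complex.exp (-(lam * t))) (Icc 0 T) :=
        fun x _ => (hE x).continuousAt.continuousWithinAt
      exact h1.mul hd)
    (by
      intro x hx
      have h1 := (hE x).hasDerivWithinAt (s := Ici x)
      have h2 := (hder x (Ico_subset_Icc_self hx)).mono_of_mem_nhdsWithin (Icc_nhds_Ici hx)
      refine HasDerivWithinAt.congr_deriv (h1.mul h2) ?_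
      ring)
    (by simp)
    (continuousOn_const.add hI1)
    (by
      intro x hx
      simpa using (hI2 x hx).const_add (‖d 0‖))
    (by
      intro x hx
      rw [norm_mul, hn])
  intro t ht
  have h1 := key ht
  rw [norm_mul, hn] at h1
  calc ‖d t‖ = Real.exp (lam.re * t) * (Real.exp (-(lam.re * t)) * ‖d t‖) := by
        rw [← mul_assoc, ← Real.exp_add]; simp
    _ ≤ _ := by gcongr

/-- linear inequality in `X` -/
theorem lin_ineq {T γ b ρ : ℝ} (hb : 0 ≤ b) (hρ : 0 ≤ ρ) {D : ℝ → X}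
    (hD : ContinuousOn D (Icc 0 T)) {lam : ℤ → ℂ} (hlam : ∀ k, (lam k).re ≤ γ)
    {g : ℝ → ℤ → ℂ} (hgc : ∀ k, ContinuousOn (fun t => g t k) (Icc 0 T))
    (hder : ∀ k, ∀ t ∈ Icc 0 T, HasDerivWithinAt (fun s => D s k)
      (lam k * D t k + g t k) (Icc 0 T) t)
    (hg : ∀ t ∈ Icc 0 T, ∀ F : Finset ℤ, ∑ k ∈ F, ‖g t k‖ ≤ b * ‖D t‖ + ρ) :
    ∀ t ∈ Icc 0 T, ‖D t‖ ≤ (‖D 0‖ + ρ * t) * Real.exp (max (γ + b) 0 * t) := by
  refine gronwall_int hb hρ hD.norm (norm_nonneg _) ?_
  intro t ht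
  have hT : 0 ≤ T := ht.1.trans ht.2
  have hDk : ∀ k, ContinuousOn (fun t => D t k) (Icc 0 T) := fun k =>
    (X.coord k).continuous.comp_continuousOn hD
  apply X.norm_le_of_sum_le
  intro F
  have hsub : Icc 0 t ⊆ Icc 0 T := Icc_subset_Icc_right ht.2
  have hexp : ContinuousOn (fun s : ℝ => Real.exp (-(γ * s))) (Icc 0 T) := by fun_prop
  have hint : ∀ k, IntervalIntegrable (fun s => Real.exp (-(γ * s)) * ‖g s k‖) volume 0 t := by
    intro k
    apply ContinuousOn.intervalIntegrable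
    rw [uIcc_of_le ht.1]
    exact (hexp.mul (hgc k).norm).mono hsub
  have step : ∀ k, ‖D t k‖ ≤ Real.exp (γ * t) *
      (‖D 0 k‖ + ∫ s in (0:ℝ)..t, Real.exp (-(γ * s)) * ‖g s k‖) := by
    intro k
    have h1 := mode_ineq (hDk k) (hgc k) (hder k) t ht
    refine h1.trans ?_
    rw [mul_add, mul_add]
    refine add_le_add ?_ ?_
    · have := hlam k
      have ht0 := ht.1
      gcongr
    · rw [← intervalIntegral.integral_const_mul, ← intervalIntegral.integral_const_mul]
      refine intervalIntegral.integral_mono_on ht.1 ?_ ?_ ?_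
      · apply ContinuousOn.intervalIntegrable
        rw [uIcc_of_le ht.1]
        have : ContinuousOn (fun s : ℝ => Real.exp (-((lam k).re * s))) (Icc 0 t) := by fun_prop
        exact continuousOn_const.mul (this.mul ((hgc k).norm.mono hsub))
      · exact (hint k).const_mul _
      · intro s hs
        rw [← mul_assoc, ← mul_assoc, ← Real.exp_add, ← Real.exp_add]
        have h2 : (lam k).re * t + -((lam k).re * s) ≤ γ * t + -(γ * s) := by
          have h3 := hlam k
          have h4 : 0 ≤ t - s := by linarith [hs.2]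
          nlinarith [mul_le_mul_of_nonneg_right h3 h4]
        gcongr
  calc ∑ k ∈ F, ‖D t k‖ ≤ ∑ k ∈ F, Real.exp (γ * t) *
      (‖D 0 k‖ + ∫ s in (0:ℝ)..t, Real.exp (-(γ * s)) * ‖g s k‖) :=
        Finset.sum_le_sum fun k _ => step k
    _ = Real.exp (γ * t) * ((∑ k ∈ F, ‖D 0 k‖) +
        ∫ s in (0:ℝ)..t, Real.exp (-(γ * s)) * ∑ k ∈ F, ‖g s k‖) := by
        rw [← Finset.mul_sum, Finset.sum_add_distrib]
        congr 2
        rw [← intervalIntegral.integral_finsetSum (fun k _ => hint k)]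
        congr 1; funext s; rw [Finset.mul_sum]
    _ ≤ _ := by
        gcongr
        · exact (D 0).sum_le F
        · refine intervalIntegral.integral_mono_on ht.1 ?_ ?_ ?_
          · apply ContinuousOn.intervalIntegrable
            rw [uIcc_of_le ht.1]
            refine (hexp.mul ?_).mono hsub
            exact continuousOn_finsetSum _ fun k _ => (hgc k).norm
          · apply ContinuousOn.intervalIntegrable
            rw [uIcc_of_le ht.1]
            exact (hexp.mul ((continuousOn_const.mul hD.norm).add continuousOn_const)).mono hsub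
          · intro s hs
            have := hg s (hsub hs) F
            gcongr

theorem IsSol.coord_cont {c : ℂ} {ω : Ker} {T : ℝ} {u : ℝ → X} (h : IsSol c ω T u) (k : ℤ) :
    ContinuousOn (fun t => u t k) (Icc 0 T) :=
  (X.coord k).continuous.comp_continuousOn h.cont

/-- two exact solutions bounded by `M` -/
theorem IsSol.lipschitz {c : ℂ} (hc : 0 ≤ c.re) (hc1 : ‖c‖ ≤ 1) {ω : Ker} {T M : ℝ}
    {u v : ℝ → X} (hu : IsSol c ω T u) (hv : IsSol c ω T v)
    (hM : ∀ t ∈ Icc 0 T, ‖u t‖ + ‖v t‖ ≤ M) :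
    ∀ t ∈ Icc 0 T, ‖u t - v t‖ ≤ ‖u 0 - v 0‖ * Real.exp (M * t) := by
  intro t ht
  have hM0 : 0 ≤ M := le_trans (by positivity) (hM t ht)
  have h := lin_ineq (T := T) (γ := 0) (b := M) (ρ := 0) hM0 le_rfl
    (D := fun t => u t - v t) (hu.cont.sub hv.cont)
    (lam := fun k => c * (-(k:ℂ)^2)) ?_
    (g := fun t k => c * (B ω (u t + v t) (u t - v t) k)) ?_ ?_ ?_ t ht
  · simpa [max_eq_left hM0] using h
  · intro k
    have : c * (-(k:ℂ)^2) = c * ((-((k:ℝ)^2) : ℝ) : ℂ) := by push_cast; ring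
    rw [this, Complex.re_mul_ofReal]
    nlinarith [sq_nonneg (k:ℝ), mul_nonneg hc (sq_nonneg (k:ℝ))]
  · intro k
    exact continuousOn_const.mul ((X.coord k).continuous.comp_continuousOn
      (continuousOn_B ω (hu.cont.add hv.cont) (hu.cont.sub hv.cont)))
  · intro k t ht
    have h1 := (hu.deriv k t ht).sub (hv.deriv k t ht)
    refine HasDerivWithinAt.congr_deriv h1 ?_
    have h2 : B ω (u t + v t) (u t - v t) = B ω (u t) (u t) - B ω (v t) (v t) := by
      simp only [map_add, map_sub, add_apply]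
      rw [B_comm ω (v t) (u t)]; abel
    rw [h2]
    simp only [X.sub_apply]
    ring
  · intro t ht F
    have h1 : ∑ k ∈ F, ‖c * (B ω (u t + v t) (u t - v t) k)‖ ≤
        ∑ k ∈ F, ‖(B ω (u t + v t) (u t - v t) k)‖ := by
      apply Finset.sum_le_sum; intro k _
      rw [norm_mul]; exact mul_le_of_le_one_left (norm_nonneg _) hc1
    have h2 := X.sum_le (B ω (u t + v t) (u t - v t)) F
    have h3 := norm_B_le ω (u t + v t) (u t - v t)
    have h4 : ‖u t + v t‖ ≤ M := (norm_add_le _ _).trans (hM t ht)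
    have h5 : ‖u t + v t‖ * ‖u t - v t‖ ≤ M * ‖u t - v t‖ := by gcongr
    linarith

theorem IsSol.unique {c : ℂ} (hc : 0 ≤ c.re) (hc1 : ‖c‖ ≤ 1) {ω : Ker} {T : ℝ}
    {u v : ℝ → X} (hu : IsSol c ω T u) (hv : IsSol c ω T v) (h0 : u 0 = v 0) :
    ∀ t ∈ Icc 0 T, u t = v t := by
  intro t ht
  obtain ⟨M, hM⟩ := isCompact_Icc.exists_bound_of_continuousOn (hu.cont.norm.add hv.cont.norm)
  have h := hu.lipschitz hc hc1 hv (M := M) (fun s hs => (le_abs_self _).trans (hM s hs)) t ht
  rw [h0, sub_self, norm_zero, zero_mul] at h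
  exact sub_eq_zero.1 (norm_le_zero_iff.1 h)

end QNLS74
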