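import Pool.Agent.QNLS74.Lin

/-! Local existence for `u' = c (u_xx + u^2)` in `l^1(Z)` (Fourier side). -/

open Filter Topology Set MeasureTheory

namespace QNLS74

/-- the multiplier `exp(-c k^2 t)`, frozen at `t = 0` for negative times -/
noncomputable def emul (c : ℂ) (t : ℝ) (k : ℤ) : ℂ :=
  Complex.exp (-(c * (k:ℂ)^2 * ((max t 0 : ℝ) : ℂ)))

theorem norm_emul_le {c : ℂ} (hc : 0 ≤ c.re) (t : ℝ) (k : ℤ) : ‖emul c t k‖ ≤ 1 := by
  rw [emul, Complex.norm_exp, Real.exp_le_one_iff]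
  have h : -(c * (k:ℂ)^2 * ((max t 0 : ℝ) : ℂ)) = c * ((-((k:ℝ)^2 * max t 0) : ℝ) : ℂ) := by
    push_cast; ring
  rw [h, Complex.re_mul_ofReal]
  have h1 : 0 ≤ (k:ℝ)^2 * max t 0 := mul_nonneg (sq_nonneg _) (le_max_right _ _)
  nlinarith [mul_nonneg hc h1]

theorem summable_emul {c : ℂ} (hc : 0 ≤ c.re) (t : ℝ) (a : X) :
    Summable fun k => ‖emul c t k * a k‖ := by
  refine Summable.of_nonneg_of_le (fun _ => norm_nonneg _) (fun k => ?_) a.summable
  rw [norm_mul]
  exact mul_le_of_le_one_left (norm_nonneg _) (norm_emul_le hc t k)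

/-- the linear semigroup -/
noncomputable def EE {c : ℂ} (hc : 0 ≤ c.re) (t : ℝ) : X →L[ℂ] X :=
  LinearMap.mkContinuous
    { toFun := fun a => X.mk (fun k => emul c t k * a k) (summable_emul hc t a)
      map_add' := fun a b => by
        apply X.ext'; intro k
        simp only [X.mk_apply, X.add_apply]; ring
      map_smul' := fun r a => by
        apply X.ext'; intro k
        simp only [X.mk_apply, X.smul_apply, RingHom.id_apply]; ring }
    1
    (fun a => by
      rw [one_mul]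
      apply X.norm_le_of_forall
      intro k
      show ‖emul c t k * a k‖ ≤ _
      rw [norm_mul]
      exact mul_le_of_le_one_left (norm_nonneg _) (norm_emul_le hc t k))

theorem EE_apply {c : ℂ} (hc : 0 ≤ c.re) (t : ℝ) (a : X) (k : ℤ) :
    EE hc t a k = emul c t k * a k := rfl

theorem norm_EE_le {c : ℂ} (hc : 0 ≤ c.re) (t : ℝ) (a : X) : ‖EE hc t a‖ ≤ ‖a‖ := by
  apply X.norm_le_of_forall
  intro k
  rw [EE_apply, norm_mul]
  exact mul_le_of_le_one_left (norm_nonneg _) (norm_emul_le hc t k)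

theorem continuous_emul (c : ℂ) (k : ℤ) : Continuous fun t => emul c t k := by
  unfold emul
  fun_prop

/-- dominated convergence in `X` -/
theorem X.tendsto_of_dominated {α : Type*} {l : Filter α} {f : α → X} {a : X} {g : ℤ → ℝ}
    (hg : Summable g) (hf : ∀ᶠ x in l, ∀ k, ‖f x k‖ ≤ g k)
    (hlim : ∀ k, Tendsto (fun x => f x k) l (𝓝 (a k))) : Tendsto f l (𝓝 a) := by
  rw [tendsto_iff_norm_sub_tendsto_zero]
  have h1 : (fun x => ‖f x - a‖) = fun x => ∑' k, ‖f x k - a k‖ := by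
    funext x; rw [X.norm_eq]; rfl
  rw [h1]
  have h2 : Tendsto (fun x => ∑' k, ‖f x k - a k‖) l (𝓝 (∑' k : ℤ, (0:ℝ))) := by
    apply tendsto_tsum_of_dominated_convergence (bound := fun k => g k + ‖a k‖)
      (hg.add a.summable)
    · intro k
      have := (hlim k).sub_const (a k)
      rw [sub_self] at this
      simpa using this.norm
    · filter_upwards [hf] with x hx k
      rw [norm_norm]
      exact (norm_sub_le _ _).trans (by gcongr; exact hx k)
  simpa using h2

theorem continuous_EE_single {c : ℂ} (hc : 0 ≤ c.re) (a : X) : Continuous fun t => EE hc t a := by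
  rw [continuous_iff_continuousAt]
  intro t0
  apply X.tendsto_of_dominated a.summable
  · refine Eventually.of_forall fun t k => ?_
    rw [EE_apply, norm_mul]
    exact mul_le_of_le_one_left (norm_nonneg _) (norm_emul_le hc t k)
  · intro k
    simp only [EE_apply]
    exact ((continuous_emul c k).tendsto t0).mul_const _

theorem continuous_EE {c : ℂ} (hc : 0 ≤ c.re) : Continuous fun p : ℝ × X => EE hc p.1 p.2 := by
  rw [continuous_iff_continuousAt]
  rintro ⟨t0, x0⟩
  show Tendsto _ _ _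
  rw [tendsto_iff_norm_sub_tendsto_zero]
  have h1 : Tendsto (fun p : ℝ × X => ‖p.2 - x0‖ + ‖EE hc p.1 x0 - EE hc t0 x0‖) (𝓝 (t0, x0))
      (𝓝 0) := by
    have ha : Tendsto (fun p : ℝ × X => ‖p.2 - x0‖) (𝓝 (t0, x0)) (𝓝 0) := by
      have : Continuous fun p : ℝ × X => ‖p.2 - x0‖ := by fun_prop
      simpa using this.tendsto (t0, x0)
    have hb : Tendsto (fun p : ℝ × X => ‖EE hc p.1 x0 - EE hc t0 x0‖) (𝓝 (t0, x0)) (𝓝 0) := by
      have : Continuous fun p : ℝ × X => ‖EE hc p.1 x0 - EE hc t0 x0‖ :=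
        (((continuous_EE_single hc x0).comp continuous_fst).sub continuous_const).norm
      simpa using this.tendsto (t0, x0)
    simpa using ha.add hb
  refine squeeze_zero (fun _ => norm_nonneg _) (fun p => ?_) h1
  calc ‖EE hc p.1 p.2 - EE hc t0 x0‖ = ‖EE hc p.1 (p.2 - x0) + (EE hc p.1 x0 - EE hc t0 x0)‖ := by
        rw [map_sub]; congr 1; abel
    _ ≤ ‖EE hc p.1 (p.2 - x0)‖ + ‖EE hc p.1 x0 - EE hc t0 x0‖ := norm_add_le _ _
    _ ≤ _ := by gcongr; exact norm_EE_le hc _ _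

attribute [irreducible] EE

/-- Duhamel integrand is jointly continuous -/
theorem continuous_duh {c : ℂ} (hc : 0 ≤ c.re) {F : ℝ → X} (hF : Continuous F) :
    Continuous fun p : ℝ × ℝ => EE hc (p.1 - p.2) (F p.2) := by
  have h1 : Continuous fun p : ℝ × ℝ => (p.1 - p.2, F p.2) :=
    (continuous_fst.sub continuous_snd).prodMk (hF.comp continuous_snd)
  exact (continuous_EE hc).comp h1

theorem duh_intervalIntegrable {c : ℂ} (hc : 0 ≤ c.re) {F : ℝ → X} (hF : Continuous F) (t : ℝ) :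
    IntervalIntegrable (fun s => EE hc (t - s) (F s)) volume 0 t := by
  have h1 : Continuous fun s : ℝ => (t, s) := by fun_prop
  exact ((continuous_duh hc hF).comp h1).intervalIntegrable 0 t

/-- the Duhamel map -/
noncomputable def duh {c : ℂ} (hc : 0 ≤ c.re) (v : X) (F : ℝ → X) (t : ℝ) : X :=
  EE hc t v + c • ∫ s in (0:ℝ)..t, EE hc (t - s) (F s)

theorem duh_continuous {c : ℂ} (hc : 0 ≤ c.re) (v : X) {F : ℝ → X} (hF : Continuous F) :
    Continuous (duh hc v F) := by
  unfold duh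
  refine (continuous_EE_single hc v).add (Continuous.const_smul ?_ c)
  exact intervalIntegral.continuous_parametric_intervalIntegral_of_continuous
    (f := fun t s => EE hc (t - s) (F s)) (continuous_duh hc hF) continuous_id

theorem duh_coord {c : ℂ} (hc : 0 ≤ c.re) (v : X) {F : ℝ → X} (hF : Continuous F) {t : ℝ}
    (ht : 0 ≤ t) (k : ℤ) :
    duh hc v F t k = Complex.exp (-(c * (k:ℂ)^2) * t) *
      (v k + c * ∫ s in (0:ℝ)..t, Complex.exp (c * (k:ℂ)^2 * s) * F s k) := by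
  unfold duh
  rw [X.add_apply, X.smul_apply, EE_apply]
  have h1 : (∫ s in (0:ℝ)..t, EE hc (t - s) (F s)) k =
      ∫ s in (0:ℝ)..t, EE hc (t - s) (F s) k := by
    have h := (X.coord k).intervalIntegral_comp_comm (duh_intervalIntegrable hc hF t)
    rw [← X.coord_apply, ← h]; rfl
  rw [h1]
  have h2 : ∫ s in (0:ℝ)..t, EE hc (t - s) (F s) k =
      ∫ s in (0:ℝ)..t, Complex.exp (-(c * (k:ℂ)^2) * t) *
        (Complex.exp (c * (k:ℂ)^2 * s) * F s k) := by
    apply intervalIntegral.integral_congr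
    intro s hs
    rw [uIcc_of_le ht] at hs
    simp only [EE_apply, emul]
    rw [max_eq_left (by linarith [hs.2]), ← mul_assoc, ← Complex.exp_add]
    congr 2; push_cast; ring
  rw [h2, intervalIntegral.integral_const_mul, emul, max_eq_left ht]
  have h3 : -(c * (k:ℂ)^2 * (t:ℂ)) = -(c * (k:ℂ)^2) * t := by ring
  rw [h3]; ring

theorem duh_hasDeriv {c : ℂ} (hc : 0 ≤ c.re) (v : X) {F : ℝ → X} (hF : Continuous F) {T : ℝ}
    (k : ℤ) {t : ℝ} (ht : t ∈ Icc 0 T) :
    HasDerivWithinAt (fun s => duh hc v F s k)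
      (c * (-(k:ℂ)^2 * duh hc v F t k + F t k)) (Icc 0 T) t := by
  have hFk : Continuous fun s : ℝ => Complex.exp (c * (k:ℂ)^2 * s) * F s k := by
    have h1 : Continuous fun s : ℝ => Complex.exp (c * (k:ℂ)^2 * s) := by fun_prop
    exact h1.mul ((X.coord k).continuous.comp hF)
  have hI : HasDerivAt (fun t : ℝ => ∫ s in (0:ℝ)..t, Complex.exp (c * (k:ℂ)^2 * s) * F s k)
      (Complex.exp (c * (k:ℂ)^2 * t) * F t k) t :=
    (hFk.integral_hasStrictDerivAt 0 t).hasDerivAt
  have hE : HasDerivAt (fun s : ℝ => Complex.exp (-(c * (k:ℂ)^2) * s))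
      (Complex.exp (-(c * (k:ℂ)^2) * t) * (-(c * (k:ℂ)^2))) t := by
    have h0 := (Complex.ofRealCLM.hasDerivAt (x := t)).const_mul (-(c * (k:ℂ)^2))
    have h00 : -(c * (k:ℂ)^2) * Complex.ofRealCLM 1 = -(c * (k:ℂ)^2) := by simp
    rw [h00] at h0
    exact h0.cexp
  have hD := (hE.mul ((hI.const_mul c).const_add (v k))).hasDerivWithinAt (s := Icc 0 T)
  have hD2 := hD.congr (f₁ := fun s => duh hc v F s k)
    (fun s hs => duh_coord hc v hF hs.1 k) (duh_coord hc v hF ht.1 k)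
  refine hD2.congr_deriv ?_
  rw [duh_coord hc v hF ht.1 k]
  have h4 : Complex.exp (-(c * (k:ℂ)^2) * t) * Complex.exp (c * (k:ℂ)^2 * t) = 1 := by
    rw [← Complex.exp_add]; simp
  have h5 : Complex.exp (-(c * (k:ℂ)^2) * t) * (c * (Complex.exp (c * (k:ℂ)^2 * t) * F t k)) =
      c * F t k := by
    calc _ = (Complex.exp (-(c * (k:ℂ)^2) * t) * Complex.exp (c * (k:ℂ)^2 * t)) * (c * F t k) := by
          ring
      _ = _ := by rw [h4, one_mul]
  rw [h5]; ring

theorem norm_duh_le {c : ℂ} (hc : 0 ≤ c.re) (hc1 : ‖c‖ ≤ 1) (v : X) {F : ℝ → X} {t K : ℝ}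
    (ht : 0 ≤ t) (hK : ∀ s, ‖F s‖ ≤ K) : ‖duh hc v F t‖ ≤ ‖v‖ + K * t := by
  unfold duh
  refine (norm_add_le _ _).trans ?_
  gcongr
  · exact norm_EE_le hc _ _
  · rw [norm_smul]
    have h := intervalIntegral.norm_integral_le_of_norm_le_const (a := 0) (b := t) (C := K)
      (f := fun s => EE hc (t - s) (F s)) (fun s _ => (norm_EE_le hc _ _).trans (hK s))
    rw [sub_zero, abs_of_nonneg ht] at h
    exact (mul_le_of_le_one_left (norm_nonneg _) hc1).trans h

theorem norm_duh_sub_le {c : ℂ} (hc : 0 ≤ c.re) (hc1 : ‖c‖ ≤ 1) (v : X) {F G : ℝ → X}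
    (hF : Continuous F) (hG : Continuous G) {t K : ℝ}
    (ht : 0 ≤ t) (hK : ∀ s, ‖F s - G s‖ ≤ K) : ‖duh hc v F t - duh hc v G t‖ ≤ K * t := by
  have h1 : duh hc v F t - duh hc v G t = duh hc 0 (fun s => F s - G s) t := by
    unfold duh
    simp only [map_sub, map_zero, zero_add]
    rw [intervalIntegral.integral_sub (duh_intervalIntegrable hc hF t)
      (duh_intervalIntegrable hc hG t)]
    rw [smul_sub]; abel
  rw [h1]
  simpa using norm_duh_le hc hc1 0 ht hK

/-- SPEC A: local existence. -/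
theorem local_exists {c : ℂ} (hc : 0 ≤ c.re) (hc1 : ‖c‖ ≤ 1) (ω : Ker) {M T : ℝ} (hM : 0 < M)
    (hT : 0 ≤ T) (hMT : 8 * M * T ≤ 1) {v : X} (hv : ‖v‖ ≤ M) :
    ∃ u : ℝ → X, IsSol c ω T u ∧ u 0 = v ∧ ∀ t ∈ Icc 0 T, ‖u t‖ ≤ 2 * M := by
  -- the nonlinearity of an element of `C([0,T],X)`
  let ext : C(Icc (0:ℝ) T, X) → ℝ → X := fun u => IccExtend hT u
  have hext : ∀ u, Continuous (ext u) := fun u => u.continuous.Icc_extend'
  let N : C(Icc (0:ℝ) T, X) → ℝ → X := fun u s => B ω (ext u s) (ext u s)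
  have hN : ∀ u, Continuous (N u) := fun u =>
    ((B ω).continuous.comp (hext u)).clm_apply (hext u)
  let Φ : C(Icc (0:ℝ) T, X) → C(Icc (0:ℝ) T, X) := fun u =>
    ⟨fun t => duh hc v (N u) t, (duh_continuous hc v (hN u)).comp continuous_subtype_val⟩
  have hextle : ∀ (u : C(Icc (0:ℝ) T, X)) s, ‖ext u s‖ ≤ ‖u‖ := fun u s => u.norm_coe_le_norm _
  set S : Set C(Icc (0:ℝ) T, X) := Metric.closedBall 0 (2 * M) with hS
  have hmem : ∀ u, u ∈ S ↔ ‖u‖ ≤ 2 * M := fun u => by rw [hS, mem_closedBall_zero_iff]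
  have hmap : MapsTo Φ S S := by
    intro u hu
    rw [hmem] at hu ⊢
    rw [ContinuousMap.norm_le _ (by positivity)]
    intro t
    have h1 : ‖duh hc v (N u) t‖ ≤ ‖v‖ + (4 * M ^ 2) * t := by
      apply norm_duh_le hc hc1 v t.2.1
      intro s
      refine (norm_B_le ω _ _).trans ?_
      have := (hextle u s).trans hu
      nlinarith [norm_nonneg (ext u s)]
    refine h1.trans ?_
    have h2 : (4 * M ^ 2) * (t:ℝ) ≤ (4 * M ^ 2) * T := by
      have := t.2.2
      gcongr
    nlinarith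
  have hcontr : ContractingWith (1/2) (hmap.restrict Φ S S) := by
    refine ⟨by norm_num, LipschitzWith.of_dist_le_mul ?_⟩
    rintro ⟨u, hu⟩ ⟨w, hw⟩
    rw [hmem] at hu hw
    rw [Subtype.dist_eq, Subtype.dist_eq]
    show dist (Φ u) (Φ w) ≤ _ * dist u w
    rw [dist_eq_norm, dist_eq_norm, ContinuousMap.norm_le _ (by positivity)]
    intro t
    have h1 : ‖duh hc v (N u) t - duh hc v (N w) t‖ ≤ (4 * M * ‖u - w‖) * t := by
      apply norm_duh_sub_le hc hc1 v (hN u) (hN w) t.2.1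
      intro s
      have h2 : N u s - N w s = B ω (ext u s + ext w s) (ext u s - ext w s) := by
        simp only [N, map_add, map_sub, add_apply]
        rw [B_comm ω (ext w s) (ext u s)]; abel
      rw [h2]
      refine (norm_B_le ω _ _).trans ?_
      have h3 : ‖ext u s + ext w s‖ ≤ 4 * M :=
        (norm_add_le _ _).trans (by linarith [(hextle u s).trans hu, (hextle w s).trans hw])
      have h4 : ‖ext u s - ext w s‖ ≤ ‖u - w‖ := by
        have h5 : ext u s - ext w s = ext (u - w) s := rfl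
        rw [h5]; exact hextle _ _
      gcongr
    show ‖duh hc v (N u) t - duh hc v (N w) t‖ ≤ _
    refine h1.trans ?_
    have h6 : (4 * M * ‖u - w‖) * (t:ℝ) ≤ (4 * M * ‖u - w‖) * T := by
      have := t.2.2
      gcongr
    have h7 : (((1/2 : NNReal)) : ℝ) = 1/2 := by norm_num
    rw [h7]
    nlinarith [norm_nonneg (u - w)]
  have hcomp : IsComplete S := Metric.isClosed_closedBall.isComplete
  have h0S : (0 : C(Icc (0:ℝ) T, X)) ∈ S := by rw [hmem]; simp; positivity
  obtain ⟨u, huS, hufix, -, -⟩ := hcontr.exists_fixedPoint' hcomp hmap h0S (edist_ne_top _ _)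
  rw [hmem] at huS
  have hfix : ∀ t ∈ Icc 0 T, ext u t = duh hc v (N u) t := by
    intro t ht
    have h1 : ext u t = u ⟨t, ht⟩ := IccExtend_of_mem hT u ht
    rw [h1]
    conv_lhs => rw [← hufix]
    rfl
  refine ⟨ext u, ⟨(hext u).continuousOn, ?_⟩, ?_, ?_⟩
  · intro k t ht
    have h1 := duh_hasDeriv hc v (hN u) (T := T) k ht
    rw [← hfix t ht] at h1
    exact h1.congr (fun s hs => by rw [hfix s hs]) (by rw [hfix t ht])
  · rw [hfix 0 ⟨le_rfl, hT⟩]
    apply X.ext'; intro k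
    rw [duh_coord hc v (hN u) le_rfl k]
    simp
  · intro t _
    exact (hextle u t).trans huS

end QNLS74
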